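import Mathlib
import Pool.Agent.Q176.CkEmb
import Pool.Agent.Q176.PseudoBase

/-!
# MP_a55298: the `C_k`-stable closure of the separable metrizable spaces has no universal space
-/

namespace Pool.Agent.Results.MP_a55298_gt.NoUniversal

open Set Topology TopologicalSpace Q176.PseudoBase Q176.CkEmb

universe u v

/-- A class of topological spaces. -/
abbrev SpaceClass : Type 1 := (X : Type) → TopologicalSpace X → Prop

/-- `C_k`-stable classes: closed under subspaces, homeomorphic images, countable topological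
sums, countable Tychonoff products, and `C_k(X, Y)` with `X` Lindelöf. -/
structure CkStable (𝒳 : SpaceClass) : Prop where
  subspace : ∀ (X : Type) [TopologicalSpace X], 𝒳 X inferInstance → ∀ s : Set X,
    𝒳 s inferInstance
  homeo : ∀ (X Y : Type) [TopologicalSpace X] [TopologicalSpace Y], 𝒳 X inferInstance →
    X ≃ₜ Y → 𝒳 Y inferInstance
  sum : ∀ (ι : Type) [Countable ι] (X : ι → Type) [∀ i, TopologicalSpace (X i)],
    (∀ i, 𝒳 (X i) inferInstance) → 𝒳 (Σ i, X i) inferInstance
  prod : ∀ (ι : Type) [Countable ι] (X : ι → Type) [∀ i, TopologicalSpace (X i)],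
    (∀ i, 𝒳 (X i) inferInstance) → 𝒳 (∀ i, X i) inferInstance
  ck : ∀ (X Y : Type) [TopologicalSpace X] [TopologicalSpace Y], 𝒳 X inferInstance →
    𝒳 Y inferInstance → LindelofSpace X → 𝒳 C(X, Y) inferInstance

/-- The `C_k`-stable closure of a class: the smallest `C_k`-stable class containing it. -/
def CkClosure (𝒳 : SpaceClass) : SpaceClass := fun Z tZ =>
  ∀ 𝒴 : SpaceClass, CkStable 𝒴 → (∀ (X : Type) (tX : TopologicalSpace X), 𝒳 X tX → 𝒴 X tX) →
    𝒴 Z tZ

/-- The class of separable metrizable spaces. -/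
def M₀ : SpaceClass := fun X _ => SeparableSpace X ∧ MetrizableSpace X

/-- `U` is universal in the class `𝒳`. -/
def IsUniversal (𝒳 : SpaceClass) (U : Type) [TopologicalSpace U] : Prop :=
  𝒳 U inferInstance ∧ ∀ (Z : Type) [TopologicalSpace Z], 𝒳 Z inferInstance →
    ∃ e : Z → U, IsEmbedding e

/-- Hausdorff spaces with a countable pseudobase -/
def Φ : SpaceClass := fun X _ => T2Space X ∧ HasPB X

theorem ckStable_Φ : CkStable Φ where
  subspace X _ h s := by
    haveI := h.1
    exact ⟨inferInstance, HasPB.of_embedding IsEmbedding.subtypeVal h.2⟩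
  homeo X Y _ _ h e := by
    haveI := h.1
    exact ⟨e.symm.isEmbedding.t2Space, HasPB.of_embedding e.symm.isEmbedding h.2⟩
  sum ι _ X _ h := by
    haveI := fun i => (h i).1
    exact ⟨inferInstance, HasPB.sigma X fun i => (h i).2⟩
  prod ι _ X _ h := by
    haveI := fun i => (h i).1
    exact ⟨inferInstance, HasPB.pi X fun i => (h i).2⟩
  ck X Y _ _ hX hY _ := by
    haveI := hX.1
    haveI := hY.1
    exact ⟨inferInstance, HasPB.ck X Y hX.2 hY.2⟩

theorem M₀_le_Φ (X : Type) (tX : TopologicalSpace X) (h : M₀ X tX) : Φ X tX := by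
  obtain ⟨h1, h2⟩ := h
  letI := TopologicalSpace.metrizableSpaceMetric X
  haveI : SecondCountableTopology X := UniformSpace.secondCountable_of_separable X
  exact ⟨inferInstance, HasPB.of_secondCountable X⟩

theorem mem_closure_ck (N : Set ℝ) : CkClosure M₀ C(N, ℝ) inferInstance := by
  intro 𝒴 h𝒴 hM
  exact h𝒴.ck N ℝ (hM _ _ ⟨inferInstance, inferInstance⟩) (hM _ _ ⟨inferInstance, inferInstance⟩)
    inferInstance

/-- **The `C_k`-stable closure of the class of separable metrizable spaces has no universal
space**; moreover no `C_k(X, Y)` with `X` separable and `Y` metrizable contains a copy of every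
member of this class. -/
theorem result : (¬ ∃ (U : Type) (_ : TopologicalSpace U), IsUniversal (CkClosure M₀) U) ∧
    ∀ (X : Type u) (Y : Type v) [TopologicalSpace X] [SeparableSpace X] [TopologicalSpace Y]
      [MetrizableSpace Y], ∃ (Z : Type) (_ : TopologicalSpace Z), CkClosure M₀ Z inferInstance ∧
        ∀ e : Z → C(X, Y), ¬ IsEmbedding e := by
  constructor
  · rintro ⟨U, tU, hU, hemb⟩
    obtain ⟨hT2, hPB⟩ := hU Φ ckStable_Φ M₀_le_Φ
    choose e he using fun N : Set ℝ => hemb C(N, ℝ) (mem_closure_ck N)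
    refine no_common U (HasPB.card_le U hPB) (fun N j => e N (P N j)) fun N => ?_
    have h1 : (fun j => e N (P N j)) = e N ∘ P N := rfl
    rw [h1, ← induced_compose, ← (he N).isInducing.eq_induced]
    rfl
  · intro X Y _ _ _ _
    obtain ⟨N, hN⟩ := exists_not_embeds X Y
    exact ⟨C(N, ℝ), inferInstance, mem_closure_ck N, hN⟩

end Pool.Agent.Results.MP_a55298_gt.NoUniversal
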